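import Mathlib
import Pool.Agent.Q41.BE.Ext

set_option autoImplicit false
set_option synthInstance.maxHeartbeats 400000

namespace Pool.Agent.Results.MP_b3b95b_an.BoundedExtensions

open Q41.BE

/-- Let `x n` be a sequence in a separable real or complex Banach space `E` with functionals `φ n`
on the closed linear span `[x n]`, `φ i (x j) = δ_ij`, `sup ‖φ n‖ < ∞` (for instance a strictly
bounded minimal sequence with its associated functionals). Then there are extensions `f n ∈ E*` of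
the `φ n` with `sup ‖f n‖ < ∞` such that the subspace `[x n] + ⋂ ker f n` is dense in `E`. -/
theorem result {𝕜 E : Type*} [RCLike 𝕜] [NormedAddCommGroup E] [NormedSpace 𝕜 E]
    [CompleteSpace E] [TopologicalSpace.SeparableSpace E] (x : ℕ → E)
    (φ : ℕ → StrongDual 𝕜 (closedSpan 𝕜 x))
    (hφ : ∀ i j, φ i ⟨x j, mem_closedSpan x j⟩ = if i = j then 1 else 0)
    (hM : ∃ M : ℝ, ∀ n, ‖φ n‖ ≤ M) :
    ∃ f : ℕ → StrongDual 𝕜 E, (∀ n (a : closedSpan 𝕜 x), f n a = φ n a) ∧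
      (∃ C : ℝ, ∀ n, ‖f n‖ ≤ C) ∧
      Dense {z : E | ∃ a ∈ closedSpan 𝕜 x, ∃ b : E, (∀ n, f n b = 0) ∧ z = a + b} := by
  obtain ⟨M, hM⟩ := hM
  obtain ⟨f, hf, hC, hd⟩ := main x φ hφ hM
  refine ⟨f, hf, hC, hd.mono ?_⟩
  intro z hz
  obtain ⟨a, ha, b, hb, rfl⟩ := Submodule.mem_sup.1 hz
  exact ⟨a, ha, b, fun n => (Submodule.mem_iInf _).1 hb n, rfl⟩

end Pool.Agent.Results.MP_b3b95b_an.BoundedExtensions
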